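import Pool.Agent.Helper58.DM.Goals

/-!
# Packet M_RIC (MP_06d934_gt): the Ricci form.
-/

set_option autoImplicit false

namespace Pool.Agent.Helper97.DM

open Matrix Pool.Agent.Helper58.DH Pool.Agent.Helper58.DM

variable {I : Type} [Fintype I] [DecidableEq I] (F : Frame I)

/-- The coefficient which results from the sum of `y a b * LL a b`. -/
noncomputable def RR (w : Fin 6 → ℝ) (y : I → I → ℝ) (a c : I) : ℝ :=
  (∑ b, y a b * (xx F w c b)⁻¹) - F.η * (y a (F.bar c) * (xx F w c (F.bar c))⁻¹) -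
    F.η * (y a (F.bar a) * (xx F w c (F.bar a))⁻¹)

omit [Fintype I] [DecidableEq I] in
lemma bar_eq_iff (a b : I) : a = F.bar b ↔ b = F.bar a := by
  constructor
  · rintro rfl
    rw [F.bar_bar]
  · rintro rfl
    rw [F.bar_bar]

lemma LL_sum (w : Fin 6 → ℝ) (hx : ∀ i j, xx F w i j = xx F w j i) (y : I → I → ℝ)
    (hy : ∀ i j, y i j = y j i) (Z : Matrix I I ℂ) :
    ∑ a, ∑ b, (y a b : ℂ) * LL F w Z a b =
      1 / (kk F : ℂ) * ∑ a, ∑ c, (RR F w y a c : ℂ) * (Z a c * Z c a) := by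
  have e1 : ∑ a, ∑ b, (y a b : ℂ) * ∑ c, Z a c * Z c a * (((xx F w c b)⁻¹ : ℝ) : ℂ) =
      ∑ a, ∑ c, (∑ b, (y a b : ℂ) * (((xx F w c b)⁻¹ : ℝ) : ℂ)) * (Z a c * Z c a) := by
    refine Finset.sum_congr rfl fun a _ => ?_
    simp only [Finset.mul_sum, Finset.sum_mul]
    rw [Finset.sum_comm]
    refine Finset.sum_congr rfl fun c _ => Finset.sum_congr rfl fun b _ => ?_
    ring
  have e2 : ∑ a, ∑ b, (y a b : ℂ) * ∑ c, Z c b * Z b c * (((xx F w a c)⁻¹ : ℝ) : ℂ) =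
      ∑ a, ∑ b, (y a b : ℂ) * ∑ c, Z a c * Z c a * (((xx F w c b)⁻¹ : ℝ) : ℂ) := by
    rw [Finset.sum_comm]
    refine Finset.sum_congr rfl fun a _ => Finset.sum_congr rfl fun b _ => ?_
    rw [hy b a]
    congr 1
    refine Finset.sum_congr rfl fun c _ => ?_
    rw [hx b c]
    ring
  have e3 : ∑ a, ∑ b, (y a b : ℂ) * (Z a (F.bar b) * Z (F.bar b) a *
      (((xx F w b (F.bar b))⁻¹ : ℝ) : ℂ)) =
      ∑ a, ∑ c, ((y a (F.bar c) : ℂ) * (((xx F w c (F.bar c))⁻¹ : ℝ) : ℂ)) * (Z a c * Z c a) := by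
    refine Finset.sum_congr rfl fun a _ => ?_
    let σ : I ≃ I := ⟨F.bar, F.bar, F.bar_bar, F.bar_bar⟩
    rw [← Equiv.sum_comp σ]
    refine Finset.sum_congr rfl fun c _ => ?_
    show (y a (F.bar c) : ℂ) * (Z a (F.bar (F.bar c)) * Z (F.bar (F.bar c)) a *
      (((xx F w (F.bar c) (F.bar (F.bar c)))⁻¹ : ℝ) : ℂ)) = _
    rw [F.bar_bar, hx (F.bar c) c]
    ring
  have e4 : ∑ a, ∑ b, (y a b : ℂ) * (Z (F.bar a) b * Z b (F.bar a) *
      (((xx F w a (F.bar a))⁻¹ : ℝ) : ℂ)) =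
      ∑ a, ∑ b, (y a b : ℂ) * (Z a (F.bar b) * Z (F.bar b) a *
      (((xx F w b (F.bar b))⁻¹ : ℝ) : ℂ)) := by
    rw [Finset.sum_comm]
    refine Finset.sum_congr rfl fun a _ => Finset.sum_congr rfl fun b _ => ?_
    rw [hy b a]
    ring
  have e5 : ∑ a, ∑ b, (y a b : ℂ) * (if a = F.bar b then
      (∑ c, Z a c * Z c a * (((xx F w c b)⁻¹ : ℝ) : ℂ)) else 0) =
      ∑ a, ∑ c, ((y a (F.bar a) : ℂ) * (((xx F w c (F.bar a))⁻¹ : ℝ) : ℂ)) * (Z a c * Z c a) := by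
    refine Finset.sum_congr rfl fun a _ => ?_
    rw [Finset.sum_eq_single (F.bar a)]
    · rw [if_pos (F.bar_bar a).symm, Finset.mul_sum]
      refine Finset.sum_congr rfl fun c _ => ?_
      ring
    · intro b _ hb
      rw [if_neg fun h => hb ((bar_eq_iff F a b).1 h), mul_zero]
    · intro h
      exact absurd (Finset.mem_univ _) h
  have e6 : ∑ a, ∑ b, (y a b : ℂ) * (if a = F.bar b then
      (∑ c, Z c b * Z b c * (((xx F w a c)⁻¹ : ℝ) : ℂ)) else 0) =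
      ∑ a, ∑ b, (y a b : ℂ) * (if a = F.bar b then
      (∑ c, Z a c * Z c a * (((xx F w c b)⁻¹ : ℝ) : ℂ)) else 0) := by
    rw [Finset.sum_comm]
    refine Finset.sum_congr rfl fun a _ => Finset.sum_congr rfl fun b _ => ?_
    rw [hy b a]
    congr 1
    by_cases h : a = F.bar b
    · rw [if_pos h, if_pos ((bar_eq_iff F a b).1 h)]
      refine Finset.sum_congr rfl fun c _ => ?_
      rw [hx b c]
      ring
    · rw [if_neg h, if_neg fun h' => h ((bar_eq_iff F a b).2 h')]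
  have h1 : ∑ a, ∑ b, (y a b : ℂ) * LL F w Z a b = 1 / (2 * (kk F : ℂ)) *
      ((∑ a, ∑ b, (y a b : ℂ) * ∑ c, Z a c * Z c a * (((xx F w c b)⁻¹ : ℝ) : ℂ)) +
      (∑ a, ∑ b, (y a b : ℂ) * ∑ c, Z c b * Z b c * (((xx F w a c)⁻¹ : ℝ) : ℂ)) -
      (F.η : ℂ) * ((∑ a, ∑ b, (y a b : ℂ) * (Z a (F.bar b) * Z (F.bar b) a *
      (((xx F w b (F.bar b))⁻¹ : ℝ) : ℂ))) + ∑ a, ∑ b, (y a b : ℂ) *
      (Z (F.bar a) b * Z b (F.bar a) * (((xx F w a (F.bar a))⁻¹ : ℝ) : ℂ))) -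
      (F.η : ℂ) * ((∑ a, ∑ b, (y a b : ℂ) * (if a = F.bar b then
      (∑ c, Z a c * Z c a * (((xx F w c b)⁻¹ : ℝ) : ℂ)) else 0)) +
      ∑ a, ∑ b, (y a b : ℂ) * (if a = F.bar b then
      (∑ c, Z c b * Z b c * (((xx F w a c)⁻¹ : ℝ) : ℂ)) else 0))) := by
    rw [← Finset.sum_add_distrib, ← Finset.sum_add_distrib, ← Finset.sum_add_distrib,
      Finset.mul_sum (a := (F.η : ℂ)), Finset.mul_sum (a := (F.η : ℂ)),
      ← Finset.sum_sub_distrib, ← Finset.sum_sub_distrib, Finset.mul_sum]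
    refine Finset.sum_congr rfl fun a _ => ?_
    rw [← Finset.sum_add_distrib, ← Finset.sum_add_distrib, ← Finset.sum_add_distrib,
      Finset.mul_sum (a := (F.η : ℂ)), Finset.mul_sum (a := (F.η : ℂ)),
      ← Finset.sum_sub_distrib, ← Finset.sum_sub_distrib, Finset.mul_sum]
    refine Finset.sum_congr rfl fun b _ => ?_
    unfold LL
    by_cases h : a = F.bar b
    · simp only [if_pos h]
      ring
    · simp only [if_neg h]
      ring
  rw [h1, e2, e4, e6, e1, e3, e5]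
  have h2 : ∑ a, ∑ c, (RR F w y a c : ℂ) * (Z a c * Z c a) =
      (∑ a, ∑ c, (∑ b, (y a b : ℂ) * (((xx F w c b)⁻¹ : ℝ) : ℂ)) * (Z a c * Z c a)) -
      (F.η : ℂ) * (∑ a, ∑ c, ((y a (F.bar c) : ℂ) * (((xx F w c (F.bar c))⁻¹ : ℝ) : ℂ)) *
        (Z a c * Z c a)) -
      (F.η : ℂ) * ∑ a, ∑ c, ((y a (F.bar a) : ℂ) * (((xx F w c (F.bar a))⁻¹ : ℝ) : ℂ)) *
        (Z a c * Z c a) := by
    rw [Finset.mul_sum (a := (F.η : ℂ)), Finset.mul_sum (a := (F.η : ℂ)),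
      ← Finset.sum_sub_distrib, ← Finset.sum_sub_distrib]
    refine Finset.sum_congr rfl fun a _ => ?_
    rw [Finset.mul_sum (a := (F.η : ℂ)), Finset.mul_sum (a := (F.η : ℂ)),
      ← Finset.sum_sub_distrib, ← Finset.sum_sub_distrib]
    refine Finset.sum_congr rfl fun c _ => ?_
    unfold RR
    push_cast
    ring
  rw [h2]
  by_cases hk : (kk F : ℂ) = 0
  · rw [hk]
    simp
  · field_simp
    ring

/-- `rho` in terms of `RR`. -/
lemma rho_eq (w : Fin 6 → ℝ) (hx : ∀ i j, xx F w i j = xx F w j i) (a c : I) :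
    rho F w a c = 1 / 2 + 1 / (4 * kk F) * (xx F w a c ^ 2 * RR F w (fun i j => (xx F w i j)⁻¹) a c -
      RR F w (xx F w) a c - RR F w (xx F w) c a) := by
  have key : ∀ u v : ℝ, u⁻¹ * v⁻¹ * (u ^ 2 + v ^ 2) = u * v⁻¹ + v * u⁻¹ := by
    intro u v
    by_cases hu : u = 0
    · subst hu
      by_cases hv : v = 0
      · subst hv; simp
      · simp
    · by_cases hv : v = 0
      · subst hv; simp
      · field_simp
  have key2 : ∀ z u v : ℝ, u⁻¹ * v⁻¹ * (z ^ 2 - u ^ 2 - v ^ 2) =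
      z ^ 2 * (u⁻¹ * v⁻¹) - u * v⁻¹ - v * u⁻¹ := by
    intro z u v
    have := key u v
    linear_combination -this
  have h1 : (∑ b, (xx F w a b)⁻¹ * (xx F w c b)⁻¹ *
      (xx F w a c ^ 2 - xx F w a b ^ 2 - xx F w c b ^ 2)) =
      xx F w a c ^ 2 * (∑ b, (xx F w a b)⁻¹ * (xx F w c b)⁻¹) -
      (∑ b, xx F w a b * (xx F w c b)⁻¹) - ∑ b, xx F w c b * (xx F w a b)⁻¹ := by
    rw [Finset.mul_sum, ← Finset.sum_sub_distrib, ← Finset.sum_sub_distrib]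
    exact Finset.sum_congr rfl fun b _ => key2 _ _ _
  unfold rho RR
  rw [h1, key2, key2]
  ring

theorem m_ric (hENT : M_ENT) (hTT : M_TT) : M_RIC := by
  intro I _ _ F w κ _ _ e hk hw he X hX
  obtain ⟨-, -, -, -, hx, -⟩ := hENT I F hk
  have hxs : ∀ i j, xx F w i j = xx F w j i := fun i j => (hx w i j).1
  obtain ⟨t1, t2, t3⟩ := hTT I F w κ e hk hw he X hX
  have hk' : (kk F : ℂ) ≠ 0 := by
    exact_mod_cast hk.ne'
  have s1 := LL_sum F w hxs (xx F w) hxs X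
  have s3 := LL_sum F w hxs (fun i j => (xx F w i j)⁻¹) (fun i j => by rw [hxs i j])
    (Matrix.of fun a b ↦ (xx F w a b : ℂ) * X a b)
  have hR : ((Ric F w e X : ℝ) : ℂ) =
      -(1 / 2) * ((∑ j, gx F w (prm F ⁅X, e j⁆) (prm F ⁅X, e j⁆) : ℝ) : ℂ) +
      1 / 2 * ((B F X X : ℝ) : ℂ) +
      1 / 4 * ((∑ i, ∑ j, gx F w (prm F ⁅e i, e j⁆) X ^ 2 : ℝ) : ℂ) := by
    unfold Ric
    push_cast
    ring
  have sym : ∑ a, ∑ c, (RR F w (xx F w) a c : ℂ) * (X a c * X c a) =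
      ∑ a, ∑ c, (RR F w (xx F w) c a : ℂ) * (X a c * X c a) := by
    rw [Finset.sum_comm]
    refine Finset.sum_congr rfl fun a _ => Finset.sum_congr rfl fun c _ => ?_
    ring
  have hrho : ∑ i, ∑ j, (rho F w i j : ℂ) * (X i j * X j i) =
      1 / 2 * (∑ a, ∑ b, X a b * X b a) + 1 / (4 * (kk F : ℂ)) *
      ((∑ a, ∑ c, (RR F w (fun i j => (xx F w i j)⁻¹) a c : ℂ) *
        ((Matrix.of fun a b ↦ (xx F w a b : ℂ) * X a b) a c *
          (Matrix.of fun a b ↦ (xx F w a b : ℂ) * X a b) c a)) -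
      (∑ a, ∑ c, (RR F w (xx F w) a c : ℂ) * (X a c * X c a)) -
      ∑ a, ∑ c, (RR F w (xx F w) c a : ℂ) * (X a c * X c a)) := by
    rw [← Finset.sum_sub_distrib, ← Finset.sum_sub_distrib, Finset.mul_sum, Finset.mul_sum,
      ← Finset.sum_add_distrib]
    refine Finset.sum_congr rfl fun a _ => ?_
    rw [← Finset.sum_sub_distrib, ← Finset.sum_sub_distrib, Finset.mul_sum, Finset.mul_sum,
      ← Finset.sum_add_distrib]
    refine Finset.sum_congr rfl fun c _ => ?_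
    rw [rho_eq F w hxs a c]
    simp only [Matrix.of_apply]
    rw [hxs c a]
    push_cast
    ring
  rw [hR, t1, t2, t3, s1, s3, hrho, ← sym]
  field_simp
  ring

end Pool.Agent.Helper97.DM
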